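import Pool.Agent.H78.Dom.Star
import Pool.Agent.H58.Dom.Generic

/-!
# MP_02e24e_lc: compatibility of the product with domination, finitary types against star-types

The answer to Q1 is negative. The monster model is the class-generic structure of the free
amalgamation class `K` of `Pool.Agent.H78.Dom.Raw`. In it domination between finitary invariant
types is trivial (every variable of the dominated type is identified with a variable of the
dominating type or with a parameter), so the product respects it; but a type in countably many
variables `x_0, x_1, …` dominates a type in one variable `y` that is linked to all `x_m`, and this
domination is destroyed by taking the product with a generic type `s(w)`.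
-/

namespace Pool.Agent.Results.MP_02e24e_lc.StarDomination

open Pool.Agent.H78.Dom

/-- There are a language `L` and a monster model `U` in which the product of invariant types
respects domination on finitary types but not on types in countably many variables (in particular
not on types in small tuples of variables). -/
theorem result : ∃ (L : FirstOrder.Language.{0, 0}) (U : Type 1) (_ : L.Structure U),
    IsMonster L U ∧ Respects L U (fun α => Finite α) ∧ ¬ Respects L U (fun α => Countable α) := by
  obtain ⟨ρ, hK, hS⟩ := exists_generic
  have hG : Generic ρ :=
    { K := hK
      S := hS
      E := fun Q _ τ hτ B g0 hinj hpres => embed_over ρ hK hS Q τ hτ B g0 hinj hpres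
      H := fun I _ f g h1 h2 => homogeneous ρ hK hS I f g h1 h2
      big := not_small_ordinal.{0, 0} }
  exact ⟨LD, Ordinal.{0}, str ρ, isMonster hG.K hG.S hG.E hG.H hG.big, respects_finitary hG,
    not_respects_star hG⟩

end Pool.Agent.Results.MP_02e24e_lc.StarDomination
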